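import Pool.Agent.H33.TriSuper

set_option autoImplicit false

namespace Pool.Agent.Results.MP_14d42b_co.Disproof

/-- For every `t ≥ 3` there is `c > 0` such that for every `k₀` and all large `n` some `n`-vertex
graph has `k n²` triangles with `k ≥ k₀` but fewer than `k^t n^(3-c)` copies of `K_{3,t}`.
`G.copyCount H` is Mathlib's number of subgraphs of `G` isomorphic to `H`. -/
theorem result : ∀ t : ℕ, 3 ≤ t → ∃ c : ℝ, 0 < c ∧ ∀ k₀ : ℝ, ∃ n₀ : ℕ, ∀ n : ℕ, n₀ ≤ n →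
    ∃ (G : SimpleGraph (Fin n)) (k : ℝ), k₀ ≤ k ∧
      (G.copyCount (⊤ : SimpleGraph (Fin 3)) : ℝ) = k * (n : ℝ) ^ 2 ∧
      (G.copyCount (completeBipartiteGraph (Fin 3) (Fin t)) : ℝ) < k ^ t * (n : ℝ) ^ (3 - c) :=
  Pool.Agent.H33.TriSuper.main

end Pool.Agent.Results.MP_14d42b_co.Disproof
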